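import Pool.Agent.H201.Cz.Cyc

/-! # From one irrational rotation of the circle to finite cyclic groups -/

set_option autoImplicit false

open MeasureTheory Pool.Agent.Results.MP_4d8f14_an.FinitePermutations

namespace Pool.Agent.H201.Cz

variable {d m : ℕ}

/-- A finite union of arcs of the circle. -/
def IsArcs (A : Set UnitAddCircle) : Prop :=
  ∃ S : Finset (ℝ × ℝ), A = ⋃ p ∈ S, (fun t : ℝ => (t : UnitAddCircle)) '' Set.Ico p.1 p.2

/-- The statement for finite unions of arcs and the rotation by `α`. -/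
def ArcRate (α : ℝ) (e : Fin d → Fin m → ℤ → ℤ) : Prop :=
  ∀ ε : ℝ, 0 < ε → ∀ Φ : ℕ → ℕ, ∃ K : ℕ, ∀ (a : Fin d → ℤ) (A : Fin m → Set UnitAddCircle), (∀ j, IsArcs (A j)) →
    ∃ N, 1 ≤ N ∧ N ≤ K ∧
      volume {x : UnitAddCircle | ∃ n, N ≤ n ∧ n ≤ Φ N ∧ ε < |share e (fun i => a i • (α : UnitAddCircle)) A x n -
        share e (fun i => a i • (α : UnitAddCircle)) A x N|} ≤ ENNReal.ofReal ε

lemma exists_multiple {α : ℝ} (hα : Irrational α) (β δ : ℝ) (hδ : 0 < δ) :
    ∃ (k : ℤ) (r : ℝ), |r| < δ ∧ k • (α : UnitAddCircle) = ((β + r : ℝ) : UnitAddCircle) := by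
  have h1 : DenseRange (· • (α : UnitAddCircle) : ℤ → UnitAddCircle) := by
    rw [AddCircle.denseRange_zsmul_coe_iff]
    simpa using hα
  obtain ⟨k, hk⟩ := h1.exists_dist_lt ((β : ℝ) : UnitAddCircle) hδ
  rw [dist_comm, dist_eq_norm] at hk
  obtain ⟨r, hr1, hr2⟩ := QuotientAddGroup.norm_lt_iff.1 hk
  refine ⟨k, r, by simpa using hr2, ?_⟩
  have hr3 : ((r : ℝ) : UnitAddCircle) = k • (α : UnitAddCircle) - ((β : ℝ) : UnitAddCircle) := hr1
  rw [AddCircle.coe_add, hr3]
  abel

lemma circle_eq {s t : ℝ} (h : (s : UnitAddCircle) = (t : UnitAddCircle)) : ∃ k : ℤ, s = t + k := by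
  rw [← sub_eq_zero, ← AddCircle.coe_sub, AddCircle.coe_eq_zero_iff] at h
  obtain ⟨k, hk⟩ := h
  refine ⟨k, ?_⟩
  simp at hk
  linarith

/-- the arcs of a set of residues -/
def arcs {Q : ℕ} (A : Set (ZMod Q)) : Set UnitAddCircle :=
  {z | ∃ y ∈ A, ∃ s : ℝ, (y.val : ℝ) / Q ≤ s ∧ s < (y.val + 1) / Q ∧ (s : UnitAddCircle) = z}

lemma arcs_isArcs {Q : ℕ} [NeZero Q] (A : Set (ZMod Q)) : IsArcs (arcs A) := by
  classical
  refine ⟨(Finset.univ.filter (· ∈ A)).image (fun y : ZMod Q => ((y.val : ℝ) / Q, ((y.val : ℝ) + 1) / Q)), ?_⟩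
  ext z
  simp only [arcs, Set.mem_ofPred_eq, Finset.mem_image, Finset.mem_filter, Finset.mem_univ, true_and, Set.iUnion_exists,
    Set.biUnion_and', Set.iUnion_iUnion_eq_right, Set.mem_iUnion, Set.mem_image, Set.mem_Ico, exists_prop, and_assoc]

lemma mem_arcs {Q : ℕ} [NeZero Q] (A : Set (ZMod Q)) (c : ℤ) (t : ℝ) (h0 : 0 ≤ t) (h1 : t < 1) :
    ((((c : ℝ) + t) / Q : ℝ) : UnitAddCircle) ∈ arcs A ↔ (c : ZMod Q) ∈ A := by
  have hQ : (0 : ℝ) < Q := by exact_mod_cast Nat.pos_of_ne_zero (NeZero.ne Q)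
  constructor
  · rintro ⟨y, hy, s, hs1, hs2, hs3⟩
    obtain ⟨k, hk⟩ := circle_eq hs3
    rw [hk, div_le_iff₀ hQ] at hs1
    rw [hk, lt_div_iff₀ hQ] at hs2
    have e1 : (((c : ℝ) + t) / Q + k) * Q = c + t + k * Q := by field_simp
    rw [e1] at hs1 hs2
    have e2 : (y.val : ℤ) = c + k * Q := by
      have a1 : ((y.val : ℤ) : ℝ) < (c + k * Q : ℤ) + 1 := by push_cast; linarith
      have a2 : ((c + k * Q : ℤ) : ℝ) < (y.val : ℤ) + 1 := by push_cast; linarith
      have a3 : (y.val : ℤ) < (c + k * Q : ℤ) + 1 := by exact_mod_cast a1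
      have a4 : (c + k * Q : ℤ) < (y.val : ℤ) + 1 := by exact_mod_cast a2
      omega
    have e3 : (c : ZMod Q) = y := by
      have := congrArg (Int.cast : ℤ → ZMod Q) e2
      push_cast at this
      rw [ZMod.natCast_self, mul_zero, add_zero, ZMod.natCast_zmod_val] at this
      exact this.symm
    rw [e3]
    exact hy
  · intro hc
    have e2 : ∃ k : ℤ, (c : ℤ) = ((c : ZMod Q).val : ℤ) + k * Q := by
      refine ⟨c / Q, ?_⟩
      rw [ZMod.val_intCast]
      have := Int.emod_add_mul_ediv c Q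
      linarith
    obtain ⟨k, hk⟩ := e2
    refine ⟨_, hc, (((c : ZMod Q).val : ℝ) + t) / Q, ?_, ?_, ?_⟩
    · gcongr
      linarith
    · gcongr
    · have e3 : ((c : ℝ) + t) / Q = (((c : ZMod Q).val : ℝ) + t) / Q + k := by
        have : (c : ℝ) = ((c : ZMod Q).val : ℝ) + k * Q := by exact_mod_cast hk
        rw [this]
        field_simp
        ring
      rw [e3, AddCircle.coe_add]
      have : ((k : ℝ) : UnitAddCircle) = 0 := by
        rw [AddCircle.coe_eq_zero_iff]
        exact ⟨k, by simp⟩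
      rw [this, add_zero]

lemma volume_lower {Q : ℕ} [NeZero Q] (B : Set (ZMod Q)) (C : Set UnitAddCircle)
    (h : ∀ z ∈ B, ∀ t : ℝ, 1 / 4 < t → t < 3 / 4 → ((((z.val : ℝ) + t) / Q : ℝ) : UnitAddCircle) ∈ C) :
    ENNReal.ofReal ((Nat.card B : ℝ) / (2 * Q)) ≤ volume C := by
  classical
  have hQ : (0 : ℝ) < Q := by exact_mod_cast Nat.pos_of_ne_zero (NeZero.ne Q)
  have h1 := UnitAddCircle.measurePreserving_mk 0
  have h2 := Measure.le_map_apply (μ := volume.restrict (Set.Ioc (0 : ℝ) (0 + 1))) h1.measurable.aemeasurable C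
  rw [h1.map_eq] at h2
  refine le_trans ?_ h2
  have hfin : Set.Finite B := Set.toFinite B
  let I : ZMod Q → Set ℝ := fun z => Set.Ioo (((z.val : ℝ) + 1 / 4) / Q) (((z.val : ℝ) + 3 / 4) / Q)
  have hI : ∀ z, I z ⊆ Set.Ioc (0 : ℝ) (0 + 1) := by
    intro z s hs
    have hz := ZMod.val_lt z
    have hz' : (z.val : ℝ) + 1 ≤ Q := by exact_mod_cast hz
    have h3 := (div_lt_iff₀ hQ).1 hs.1
    have h4 := (lt_div_iff₀ hQ).1 hs.2
    have h5 : (0 : ℝ) ≤ z.val := Nat.cast_nonneg _
    constructor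
    · by_contra hcon
      push Not at hcon
      nlinarith
    · by_contra hcon
      push Not at hcon
      nlinarith
  have hsub : (⋃ z ∈ hfin.toFinset, I z) ⊆ (fun t : ℝ => (t : UnitAddCircle)) ⁻¹' C := by
    intro s hs
    simp only [Set.mem_iUnion, Set.Finite.mem_toFinset, exists_prop] at hs
    obtain ⟨z, hz, hs⟩ := hs
    have h3 := (div_lt_iff₀ hQ).1 hs.1
    have h4 := (lt_div_iff₀ hQ).1 hs.2
    have h5 := h z hz (s * Q - z.val) (by linarith) (by linarith)
    have h6 : ((z.val : ℝ) + (s * Q - z.val)) / Q = s := by field_simp; ring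
    rw [h6] at h5
    exact h5
  have hsub2 : (⋃ z ∈ hfin.toFinset, I z) ⊆ Set.Ioc (0 : ℝ) (0 + 1) := by
    simp only [Set.iUnion_subset_iff]
    intro z _
    exact hI z
  have hmeas : MeasurableSet (⋃ z ∈ hfin.toFinset, I z) :=
    Finset.measurableSet_biUnion _ fun z _ => measurableSet_Ioo
  calc ENNReal.ofReal ((Nat.card B : ℝ) / (2 * Q))
      = volume (⋃ z ∈ hfin.toFinset, I z) := by
        rw [measure_biUnion_finset]
        · have h3 : ∀ z ∈ hfin.toFinset, volume (I z) = ENNReal.ofReal (1 / (2 * Q)) := by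
            intro z _
            rw [Real.volume_Ioo]
            congr 1
            field_simp
            ring
          rw [Finset.sum_congr rfl h3, Finset.sum_const, nsmul_eq_mul, ← ENNReal.ofReal_natCast,
            ← ENNReal.ofReal_mul (Nat.cast_nonneg _)]
          congr 1
          rw [Nat.card_coe_set_eq, Set.ncard_eq_toFinset_card B hfin]
          ring
        · intro z _ z' _ hzz
          rw [Function.onFun, Set.disjoint_left]
          intro s hs hs'
          apply hzz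
          have h3 := (div_lt_iff₀ hQ).1 hs.1
          have h4 := (lt_div_iff₀ hQ).1 hs.2
          have h5 := (div_lt_iff₀ hQ).1 hs'.1
          have h6 := (lt_div_iff₀ hQ).1 hs'.2
          have a1 : (z.val : ℝ) < z'.val + 1 := by linarith
          have a2 : (z'.val : ℝ) < z.val + 1 := by linarith
          have a3 : z.val < z'.val + 1 := by exact_mod_cast a1
          have a4 : z'.val < z.val + 1 := by exact_mod_cast a2
          exact ZMod.val_injective Q (by omega)
        · intro z _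
          exact measurableSet_Ioo
    _ = volume.restrict (Set.Ioc (0 : ℝ) (0 + 1)) (⋃ z ∈ hfin.toFinset, I z) := by
        rw [Measure.restrict_eq_self _ hsub2]
    _ ≤ _ := measure_mono hsub

theorem arc_cyclic {α : ℝ} (hα : Irrational α) (e : Fin d → Fin m → ℤ → ℤ) (h : ArcRate α e) : CyclicRate e := by
  classical
  intro ε hε Φ
  obtain ⟨K, hK⟩ := h (ε / 2) (by linarith) Φ
  refine ⟨K, ?_⟩
  intro Q hQ0 a A
  have hNZ : NeZero Q := ⟨hQ0.ne'⟩
  have hQ : (0 : ℝ) < Q := by exact_mod_cast hQ0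
  obtain ⟨L, hL⟩ := exists_range K Φ
  obtain ⟨R, hR⟩ := exists_bound e (max L K)
  obtain ⟨δ, hδ⟩ : ∃ δ : ℝ, δ = 1 / (4 * Q * ((R + 1) * (d + 1))) := ⟨_, rfl⟩
  have hδ0 : 0 < δ := by rw [hδ]; positivity
  choose k r hr hk using fun i => exists_multiple hα ((a i).val / Q : ℝ) δ hδ0
  obtain ⟨N, hN1, hN2, hN3⟩ := hK k (fun j => arcs (A j)) (fun j => arcs_isArcs (A j))
  refine ⟨N, hN1, hN2, ?_⟩
  have hshare : ∀ (z : ZMod Q) (t : ℝ), 1 / 4 < t → t < 3 / 4 → ∀ n, n ≤ max L K →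
      share e (fun i => k i • (α : UnitAddCircle)) (fun j => arcs (A j))
        ((((z.val : ℝ) + t) / Q : ℝ) : UnitAddCircle) n = share e a A z n := by
    intro z t ht1 ht2 n hn
    unfold share
    congr 2
    apply Nat.card_congr
    refine Equiv.subtypeEquivRight fun l => and_congr_right fun hl1 => and_congr_right fun hl2 =>
      forall_congr' fun j => ?_
    have hb : |(Q : ℝ) * ∑ i, (e i j l : ℝ) * r i| < 1 / 4 := by
      rw [abs_mul, abs_of_pos hQ]
      have h1 : |∑ i, (e i j l : ℝ) * r i| ≤ ∑ i : Fin d, (R : ℝ) * δ := by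
        refine (Finset.abs_sum_le_sum_abs _ _).trans (Finset.sum_le_sum fun i _ => ?_)
        rw [abs_mul]
        apply mul_le_mul _ (hr i).le (abs_nonneg _) (Nat.cast_nonneg _)
        have := hR i j l (by push_cast; omega) (by push_cast; omega)
        exact_mod_cast this
      rw [Finset.sum_const, Finset.card_univ, Fintype.card_fin, nsmul_eq_mul] at h1
      calc (Q : ℝ) * |∑ i, (e i j l : ℝ) * r i| ≤ Q * (d * (R * δ)) := by gcongr
        _ = (R * d) / (4 * ((R + 1) * (d + 1))) := by rw [hδ]; field_simp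
        _ < 1 / 4 := by
          rw [div_lt_div_iff₀ (by positivity) (by norm_num)]
          nlinarith [Nat.cast_nonneg (α := ℝ) R, Nat.cast_nonneg (α := ℝ) d]
    have hpt : ((((z.val : ℝ) + t) / Q : ℝ) : UnitAddCircle) + ∑ i, e i j l • k i • (α : UnitAddCircle) =
        (((((z.val : ℤ) + ∑ i, e i j l * ((a i).val : ℤ) : ℤ) : ℝ) + (t + Q * ∑ i, (e i j l : ℝ) * r i)) / Q : ℝ) := by
      have h2 : ∑ i, e i j l • k i • (α : UnitAddCircle) =
          ((∑ i, (e i j l : ℝ) * ((a i).val / Q + r i) : ℝ) : UnitAddCircle) := by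
        have h3 : ((∑ i, (e i j l : ℝ) * ((a i).val / Q + r i) : ℝ) : UnitAddCircle) =
            ∑ i, (((e i j l : ℝ) * ((a i).val / Q + r i) : ℝ) : UnitAddCircle) := by
          exact map_sum (QuotientAddGroup.mk' (AddSubgroup.zmultiples (1 : ℝ))) _ _
        rw [h3]
        refine Finset.sum_congr rfl fun i _ => ?_
        rw [hk i, ← AddCircle.coe_zsmul, zsmul_eq_mul]
      rw [h2, ← AddCircle.coe_add]
      congr 1
      push_cast
      simp only [mul_add, Finset.sum_add_distrib]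
      have h4 : ∑ i, (e i j l : ℝ) * ((a i).val / Q) = (∑ i, (e i j l : ℝ) * (a i).val) / Q := by
        rw [Finset.sum_div]
        exact Finset.sum_congr rfl fun i _ => by ring
      rw [h4]
      field_simp
      ring
    rw [hpt, mem_arcs _ _ _ (by linarith [(abs_lt.1 hb).1]) (by linarith [(abs_lt.1 hb).2])]
    have h5 : (((z.val : ℤ) + ∑ i, e i j l * ((a i).val : ℤ) : ℤ) : ZMod Q) = z + ∑ i, e i j l • a i := by
      push_cast
      rw [ZMod.natCast_zmod_val]
      congr 1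
      refine Finset.sum_congr rfl fun i _ => ?_
      rw [ZMod.natCast_zmod_val, zsmul_eq_mul]
    rw [h5]
  have hvol := volume_lower {x : ZMod Q | ∃ n, N ≤ n ∧ n ≤ Φ N ∧ ε < |share e a A x n - share e a A x N|}
    {x : UnitAddCircle | ∃ n, N ≤ n ∧ n ≤ Φ N ∧ ε / 2 < |share e (fun i => k i • (α : UnitAddCircle)) (fun j => arcs (A j)) x n -
        share e (fun i => k i • (α : UnitAddCircle)) (fun j => arcs (A j)) x N|} (by
    rintro z ⟨n, hn1, hn2, hn3⟩ t ht1 ht2
    refine ⟨n, hn1, hn2, ?_⟩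
    rw [hshare z t ht1 ht2 n ((hL N hN2 n hn2).trans (le_max_left _ _)),
      hshare z t ht1 ht2 N (hN2.trans (le_max_right _ _))]
    linarith)
  have h6 := hvol.trans hN3
  rw [ENNReal.ofReal_le_ofReal_iff (by linarith), div_le_iff₀ (by positivity)] at h6
  have h7 : (Nat.card {x : ZMod Q // ∃ n, N ≤ n ∧ n ≤ Φ N ∧ ε < |share e a A x n - share e a A x N|} : ℝ) =
    (Nat.card {x : ZMod Q | ∃ n, N ≤ n ∧ n ≤ Φ N ∧ ε < |share e a A x n - share e a A x N|} : ℝ) := rfl
  rw [h7]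
  linarith

end Pool.Agent.H201.Cz
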