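import Mathlib
import Pool.Graph.R_pool_sql_team_seeded_3997aac3.Results.MP_4d8f14_an.FinitePermutations

/-! # From finite cyclic groups to arbitrary commuting permutations of finite sets -/

set_option autoImplicit false

open Pool.Agent.Results.MP_4d8f14_an.FinitePermutations

namespace Pool.Agent.H201.Cz

variable {d m : ℕ}

/-- The share of the `n` with `|n| ≤ N` for which `x + ∑ i, e_ij(n) a_i` is in `A_j` for all `j`. -/
noncomputable def share {H : Type} [AddCommGroup H] (e : Fin d → Fin m → ℤ → ℤ) (a : Fin d → H)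
    (A : Fin m → Set H) (x : H) (N : ℕ) : ℝ :=
  (Nat.card {n : ℤ // -(N : ℤ) ≤ n ∧ n ≤ N ∧ ∀ j, x + ∑ i, e i j n • a i ∈ A j} : ℝ) / (2 * N + 1)

/-- The statement for all finite cyclic groups. -/
def CyclicRate (e : Fin d → Fin m → ℤ → ℤ) : Prop :=
  ∀ ε : ℝ, 0 < ε → ∀ Φ : ℕ → ℕ, ∃ K : ℕ, ∀ Q : ℕ, 0 < Q → ∀ (a : Fin d → ZMod Q) (A : Fin m → Set (ZMod Q)),
    ∃ N, 1 ≤ N ∧ N ≤ K ∧
      (Nat.card {x : ZMod Q // ∃ n, N ≤ n ∧ n ≤ Φ N ∧ ε < |share e a A x n - share e a A x N|} : ℝ) ≤ ε * Q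

/-- product of commuting powers -/
def mv {Y : Type} (T : Fin d → Equiv.Perm Y) (u : Fin d → ℤ) (y : Y) : Y := (List.ofFn fun i => T i ^ u i).prod y

lemma mv_eq_noncomm {Y : Type} (T : Fin d → Equiv.Perm Y) (u : Fin d → ℤ) (y : Y) :
    mv T u y = (List.ofFn fun i => T i ^ u i).prod y := rfl

lemma prod_commute {G : Type} [Group G] {d : ℕ} (T : Fin d → G) (g : G) (hg : ∀ i, Commute g (T i)) (v : Fin d → ℤ) :
    Commute g (List.ofFn fun i => T i ^ v i).prod := by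
  apply Commute.list_prod_right
  intro x hx
  rw [List.mem_ofFn] at hx
  obtain ⟨i, rfl⟩ := hx
  exact (hg i).zpow_right _

lemma prod_add {G : Type} [Group G] {d : ℕ} (T : Fin d → G) (hT : ∀ i j, Commute (T i) (T j)) (u v : Fin d → ℤ) :
    (List.ofFn fun i => T i ^ (u i + v i)).prod = (List.ofFn fun i => T i ^ u i).prod * (List.ofFn fun i => T i ^ v i).prod := by
  induction d with
  | zero => simp
  | succ k ih =>
    simp only [List.ofFn_succ, List.prod_cons]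
    rw [ih (fun i => T i.succ) (fun i j => hT _ _) (fun i => u i.succ) (fun i => v i.succ), zpow_add]
    have h1 : Commute (List.ofFn fun i : Fin k => T i.succ ^ u i.succ).prod (T 0 ^ v 0) :=
      ((prod_commute (fun i : Fin k => T i.succ) (T 0) (fun i => hT _ _) _).symm).zpow_right _
    have := h1.eq
    rw [mul_assoc, mul_assoc, ← mul_assoc (T 0 ^ v 0), ← this]
    simp only [mul_assoc]

lemma mv_add {Y : Type} (T : Fin d → Equiv.Perm Y) (hT : ∀ i j, Commute (T i) (T j)) (u v : Fin d → ℤ) (y : Y) :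
    mv T (u + v) y = mv T u (mv T v y) := by
  unfold mv
  rw [← Equiv.Perm.mul_apply, ← prod_add T hT]
  rfl

lemma mv_bij {Y : Type} (T : Fin d → Equiv.Perm Y) (u : Fin d → ℤ) : Function.Bijective (mv T u) :=
  (List.ofFn fun i => T i ^ u i).prod.bijective

lemma class_commute {Y : Type} (T : Fin d → Equiv.Perm Y) (h : ClassLE T 1) (i j : Fin d) : Commute (T i) (T j) := by
  unfold ClassLE at h
  rw [Subgroup.lowerCentralSeries_succ, Subgroup.lowerCentralSeries_zero, Subgroup.commutator_eq_bot_iff_le_centralizer] at h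
  have h1 : T i ∈ Subgroup.closure (Set.range T) := Subgroup.subset_closure ⟨i, rfl⟩
  have h2 : T j ∈ Subgroup.closure (Set.range T) := Subgroup.subset_closure ⟨j, rfl⟩
  have h3 := h h1
  rw [Subgroup.mem_centralizer_iff] at h3
  exact (h3 (T j) h2).symm

lemma commute_class {Y : Type} (T : Fin d → Equiv.Perm Y) (h : ∀ i j, Commute (T i) (T j)) : ClassLE T 1 := by
  unfold ClassLE
  rw [Subgroup.lowerCentralSeries_succ, Subgroup.lowerCentralSeries_zero, Subgroup.commutator_eq_bot_iff_le_centralizer,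
    Subgroup.closure_le]
  rintro _ ⟨i, rfl⟩
  rw [SetLike.mem_coe, Subgroup.mem_centralizer_iff]
  intro g hg
  have : Subgroup.closure (Set.range T) ≤ Subgroup.centralizer {T i} := by
    rw [Subgroup.closure_le]
    rintro _ ⟨j, rfl⟩
    rw [SetLike.mem_coe, Subgroup.mem_centralizer_iff]
    intro k hk
    rw [Set.mem_singleton_iff] at hk
    rw [hk]
    exact h i j
  have h2 := this hg
  rw [Subgroup.mem_centralizer_iff] at h2
  exact (h2 (T i) rfl).symm

lemma point_eq {Y : Type} (T : Fin d → Equiv.Perm Y) (e : Fin d → Fin m → ℤ → ℤ) (j : Fin m) (n : ℤ) (y : Y) :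
    point T e j n y = mv T (fun i => e i j n) y := rfl

/-- digits -/
noncomputable def enc (q M : ℕ) (Q : ℕ) (v : Fin q) (u : Fin d → ℤ) : ZMod Q :=
  ((v : ℕ) : ZMod Q) + ∑ i, u i • ((q * M ^ (i : ℕ) : ℕ) : ZMod Q)

lemma enc_add (q M Q : ℕ) (v : Fin q) (u w : Fin d → ℤ) :
    enc q M Q v (u + w) = enc q M Q v u + ∑ i, w i • ((q * M ^ (i : ℕ) : ℕ) : ZMod Q) := by
  unfold enc
  simp only [Pi.add_apply, add_smul, Finset.sum_add_distrib, add_assoc]

lemma enc_inj (q M : ℕ) (_hM : 0 < M) (v v' : Fin q) (u u' : Fin d → ℤ)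
    (hu : ∀ i, 0 ≤ u i ∧ u i < M) (hu' : ∀ i, 0 ≤ u' i ∧ u' i < M)
    (h : enc q M (q * M ^ d) v u = enc q M (q * M ^ d) v' u') : v = v' ∧ u = u' := by
  -- natural number digits
  have hq : 0 < q := lt_of_le_of_lt (Nat.zero_le _) v.2
  have key : ∀ (w : Fin q) (x : Fin d → ℤ) (hx : ∀ i, 0 ≤ x i ∧ x i < M),
      enc q M (q * M ^ d) w x = (((w : ℕ) + q * (finFunctionFinEquiv (fun i => (⟨(x i).toNat, by
        have := hx i; omega⟩ : Fin M)) : ℕ) : ℕ) : ZMod (q * M ^ d)) := by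
    intro w x hx
    unfold enc
    rw [finFunctionFinEquiv_apply]
    push_cast
    congr 1
    rw [Finset.mul_sum]
    refine Finset.sum_congr rfl fun i _ => ?_
    have h1 : ((x i).toNat : ℤ) = x i := Int.toNat_of_nonneg (hx i).1
    have h2 : (((x i).toNat : ℕ) : ZMod (q * M ^ d)) = ((x i : ℤ) : ZMod (q * M ^ d)) := by
      rw [← Int.cast_natCast (R := ZMod (q * M ^ d)) (x i).toNat, h1]
    rw [zsmul_eq_mul, ← h2]
    ring
  rw [key v u hu, key v' u' hu', ZMod.natCast_eq_natCast_iff'] at h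
  have hlt : ∀ (w : Fin q) (x : Fin (M ^ d)), (w : ℕ) + q * (x : ℕ) < q * M ^ d := by
    intro w x
    have h1 := w.2
    have h2 : (x : ℕ) + 1 ≤ M ^ d := x.2
    calc (w : ℕ) + q * x < q + q * x := by omega
      _ = q * (x + 1) := by ring
      _ ≤ q * M ^ d := Nat.mul_le_mul_left _ h2
  rw [Nat.mod_eq_of_lt (hlt _ _), Nat.mod_eq_of_lt (hlt _ _)] at h
  have h3 : (v : ℕ) = v' := by
    have := congrArg (· % q) h
    simpa [Nat.add_mul_mod_self_left, Nat.mod_eq_of_lt v.2, Nat.mod_eq_of_lt v'.2] using this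
  have h4 : v = v' := Fin.ext h3
  refine ⟨h4, ?_⟩
  rw [h3] at h
  have h5 := Nat.eq_of_mul_eq_mul_left hq (Nat.add_left_cancel h)
  have h6 := finFunctionFinEquiv.injective (Fin.ext h5)
  funext i
  have h7 := congrFun h6 i
  have h8 : (u i).toNat = (u' i).toNat := by
    simpa using congrArg Fin.val h7
  have := hu i
  have := hu' i
  omega


lemma exists_range (K : ℕ) (Φ : ℕ → ℕ) : ∃ L : ℕ, ∀ N, N ≤ K → ∀ n, n ≤ Φ N → n ≤ L := by
  refine ⟨∑ N ∈ Finset.range (K + 1), Φ N, fun N hN n hn => hn.trans ?_⟩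
  exact Finset.single_le_sum (f := Φ) (fun _ _ => Nat.zero_le _) (Finset.mem_range.2 (by omega))

lemma exists_bound (e : Fin d → Fin m → ℤ → ℤ) (L : ℕ) : ∃ R : ℕ, ∀ i j (n : ℤ), -(L : ℤ) ≤ n → n ≤ L → |e i j n| ≤ R := by
  refine ⟨∑ i, ∑ j, ∑ n ∈ Finset.Icc (-(L : ℤ)) L, (e i j n).natAbs, fun i j n h1 h2 => ?_⟩
  rw [Int.abs_eq_natAbs]
  have h3 : (e i j n).natAbs ≤ ∑ n ∈ Finset.Icc (-(L : ℤ)) L, (e i j n).natAbs :=
    Finset.single_le_sum (f := fun n => (e i j n).natAbs) (fun _ _ => Nat.zero_le _) (Finset.mem_Icc.2 ⟨h1, h2⟩)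
  have h4 : ∑ n ∈ Finset.Icc (-(L : ℤ)) L, (e i j n).natAbs ≤ ∑ j, ∑ n ∈ Finset.Icc (-(L : ℤ)) L, (e i j n).natAbs :=
    Finset.single_le_sum (f := fun j => ∑ n ∈ Finset.Icc (-(L : ℤ)) L, (e i j n).natAbs) (fun _ _ => Nat.zero_le _) (Finset.mem_univ j)
  have h5 : ∑ j, ∑ n ∈ Finset.Icc (-(L : ℤ)) L, (e i j n).natAbs ≤ ∑ i, ∑ j, ∑ n ∈ Finset.Icc (-(L : ℤ)) L, (e i j n).natAbs :=
    Finset.single_le_sum (f := fun i => ∑ j, ∑ n ∈ Finset.Icc (-(L : ℤ)) L, (e i j n).natAbs) (fun _ _ => Nat.zero_le _) (Finset.mem_univ i)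
  exact_mod_cast h3.trans (h4.trans h5)

/-- share with a general family of conditions -/
lemma share_congr {H Y : Type} [AddCommGroup H] (e : Fin d → Fin m → ℤ → ℤ) (a : Fin d → H)
    (A : Fin m → Set H) (x : H) (T : Fin d → Equiv.Perm Y) (B : Fin m → Set Y) (y : Y) (N : ℕ)
    (h : ∀ n : ℤ, -(N : ℤ) ≤ n → n ≤ N → ∀ j, (x + ∑ i, e i j n • a i ∈ A j ↔ point T e j n y ∈ B j)) :
    share e a A x N = density T e B y N := by
  unfold share density
  congr 2
  apply Nat.card_congr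
  refine Equiv.subtypeEquivRight fun n => ?_
  constructor
  · rintro ⟨h1, h2, h3⟩
    exact ⟨h1, h2, fun j => (h n h1 h2 j).1 (h3 j)⟩
  · rintro ⟨h1, h2, h3⟩
    exact ⟨h1, h2, fun j => (h n h1 h2 j).2 (h3 j)⟩

lemma card_inj {α β γ : Type} (I : Finset α) (B : Set β) (C : Set γ) [Finite γ] (F : α → β → γ)
    (h1 : ∀ u ∈ I, ∀ z ∈ B, F u z ∈ C)
    (h2 : ∀ u ∈ I, ∀ z ∈ B, ∀ u' ∈ I, ∀ z' ∈ B, F u z = F u' z' → u = u' ∧ z = z') :
    (I.card : ℝ) * Nat.card B ≤ Nat.card C := by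
  let G : I × B → C := fun p => ⟨F p.1 p.2, h1 p.1 p.1.2 p.2 p.2.2⟩
  have hG : Function.Injective G := by
    rintro ⟨⟨u, hu⟩, ⟨z, hz⟩⟩ ⟨⟨u', hu'⟩, ⟨z', hz'⟩⟩ hh
    obtain ⟨rfl, rfl⟩ := h2 u hu z hz u' hu' z' hz' (congrArg Subtype.val hh)
    rfl
  have h3 := Nat.card_le_card_of_injective G hG
  rw [Nat.card_prod, Nat.card_eq_fintype_card (α := I), Fintype.card_coe] at h3
  exact_mod_cast h3

theorem cyclic_finitary (e : Fin d → Fin m → ℤ → ℤ) (h : CyclicRate e) : Finitary 1 e := by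
  classical
  intro ε hε Φ
  obtain ⟨K, hK⟩ := h (ε / 2) (by linarith) Φ
  refine ⟨K, ?_⟩
  intro Y _ _ T hT A
  have hc := class_commute T hT
  obtain ⟨L, hL⟩ := exists_range K Φ
  obtain ⟨R, hR⟩ := exists_bound e (max L K)
  obtain ⟨q, hq⟩ : ∃ q, q = Fintype.card Y := ⟨_, rfl⟩
  have hq0 : 0 < q := by rw [hq]; exact Fintype.card_pos
  let y : Fin q ≃ Y := (Fintype.equivFinOfCardEq hq.symm).symm
  obtain ⟨M, hM⟩ : ∃ M : ℕ, M = 4 * (R + 1) * (d + 1) := ⟨_, rfl⟩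
  have hM0 : 0 < M := by rw [hM]; positivity
  let Q : ℕ := q * M ^ d
  have hQ : 0 < Q := by positivity
  let box : (Fin d → ℤ) → Prop := fun u => ∀ i, 0 ≤ u i ∧ u i < M
  let A' : Fin m → Set (ZMod Q) := fun j => {x | ∃ v u, box u ∧ x = enc q M Q v u ∧ mv T u (y v) ∈ A j}
  have hA' : ∀ j v u, box u → (enc q M Q v u ∈ A' j ↔ mv T u (y v) ∈ A j) := by
    intro j v u hu
    constructor
    · rintro ⟨v', u', hu', h1, h2⟩
      obtain ⟨rfl, rfl⟩ := enc_inj q M hM0 v v' u u' hu hu' h1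
      exact h2
    · intro h2
      exact ⟨v, u, hu, rfl, h2⟩
  obtain ⟨N, hN1, hN2, hN3⟩ := hK Q hQ (fun i => ((q * M ^ (i : ℕ) : ℕ) : ZMod Q)) A'
  refine ⟨N, hN1, hN2, ?_⟩
  -- the interior
  let Int' : Finset (Fin d → ℤ) := Fintype.piFinset fun _ => Finset.Ico (R : ℤ) (M - R)
  have hshare : ∀ v, ∀ u ∈ Int', ∀ n, n ≤ max L K →
      share e (fun i => ((q * M ^ (i : ℕ) : ℕ) : ZMod Q)) A' (enc q M Q v u) n = density T e A (mv T u (y v)) n := by
    intro v u hu n hn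
    apply share_congr
    intro k hk1 hk2 j
    rw [← enc_add q M Q v u (fun i => e i j k), hA', point_eq, ← mv_add T hc, add_comm]
    intro i
    have h1 := Finset.mem_Ico.1 (Fintype.mem_piFinset.1 hu i)
    have h2 := abs_le.1 (hR i j k (by push_cast; omega) (by push_cast; omega))
    simp only [Pi.add_apply]
    omega
  let Bad : Set Y := {z | ∃ n, N ≤ n ∧ n ≤ Φ N ∧ ε < |density T e A z n - density T e A z N|}
  let Bad' : Set (ZMod Q) := {x | ∃ n, N ≤ n ∧ n ≤ Φ N ∧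
    ε / 2 < |share e (fun i => ((q * M ^ (i : ℕ) : ℕ) : ZMod Q)) A' x n -
      share e (fun i => ((q * M ^ (i : ℕ) : ℕ) : ZMod Q)) A' x N|}
  have hNZ : NeZero Q := ⟨hQ.ne'⟩
  change (Nat.card Bad' : ℝ) ≤ ε / 2 * Q at hN3
  change (Nat.card Bad : ℝ) ≤ ε * Fintype.card Y
  -- an injection
  have hinj : (Int'.card : ℝ) * Nat.card Bad ≤ Nat.card Bad' := by
    have hmem : ∀ u ∈ Int', ∀ z ∈ Bad,
        enc q M Q (y.symm (Equiv.symm (List.ofFn fun i => T i ^ u i).prod z)) u ∈ Bad' := by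
      rintro u hu z ⟨n, h1, h2, h3⟩
      refine ⟨n, h1, h2, ?_⟩
      have h4 : mv T u (y (y.symm (Equiv.symm (List.ofFn fun i => T i ^ u i).prod z))) = z := by
        unfold mv
        simp
      rw [hshare _ u hu n ((hL N hN2 n h2).trans (le_max_left _ _)), hshare _ u hu N (hN2.trans (le_max_right _ _)), h4]
      linarith
    refine card_inj Int' Bad Bad'
      (fun u z => enc q M Q (y.symm (Equiv.symm (List.ofFn fun i => T i ^ u i).prod z)) u) hmem ?_
    intro u hu z hz u' hu' z' hz' h1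
    obtain ⟨h2, h3⟩ := enc_inj q M hM0 _ _ u u' (by
      intro i
      have h1 := Finset.mem_Ico.1 (Fintype.mem_piFinset.1 hu i)
      omega) (by
      intro i
      have h1 := Finset.mem_Ico.1 (Fintype.mem_piFinset.1 hu' i)
      omega) h1
    subst h3
    have h4 := y.symm.injective h2
    exact ⟨rfl, (Equiv.symm (List.ofFn fun i => T i ^ u i).prod).injective h4⟩
  have hcard : (1 / 2 : ℝ) * M ^ d ≤ Int'.card := by
    have h1 : Int'.card = (M - 2 * R) ^ d := by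
      rw [Fintype.card_piFinset]
      simp only [Int.card_Ico, Finset.prod_const, Finset.card_univ, Fintype.card_fin]
      congr 1
      omega
    have h2 : 2 * R ≤ M := by rw [hM]; nlinarith
    rw [h1]
    push_cast [h2]
    have hMR : (0 : ℝ) < M := by exact_mod_cast hM0
    have h3 : ((M : ℝ) - 2 * R) = M * (1 + (-(2 * R / M))) := by field_simp; ring
    rw [h3, mul_pow, mul_comm]
    apply mul_le_mul_of_nonneg_left _ (by positivity)
    have h5 : (2 * R / M : ℝ) * d ≤ 1 / 2 := by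
      rw [div_mul_eq_mul_div, div_le_iff₀ hMR, hM]
      push_cast
      nlinarith [Nat.cast_nonneg (α := ℝ) R, Nat.cast_nonneg (α := ℝ) d, mul_nonneg (Nat.cast_nonneg (α := ℝ) R) (Nat.cast_nonneg (α := ℝ) d)]
    have h6 : (2 * R / M : ℝ) ≤ 2 := by
      rw [div_le_iff₀ hMR]
      have : (2 * R : ℝ) ≤ M := by exact_mod_cast h2
      linarith
    have h4 := one_add_mul_le_pow (a := -(2 * R / M : ℝ)) (by linarith) d
    linarith
  have hMd : (0 : ℝ) < M ^ d := by positivity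
  have hQ' : ((Q : ℕ) : ℝ) = q * M ^ d := by push_cast [Q]; ring
  have hfin : (1 / 2 : ℝ) * M ^ d * Nat.card Bad ≤ ε / 2 * (q * M ^ d) := by
    calc (1 / 2 : ℝ) * M ^ d * Nat.card Bad ≤ Int'.card * Nat.card Bad := by gcongr
      _ ≤ Nat.card Bad' := hinj
      _ ≤ ε / 2 * Q := hN3
      _ = ε / 2 * (q * M ^ d) := by rw [hQ']
  rw [← hq]
  have := le_of_mul_le_mul_left (a := (1 / 2 : ℝ) * M ^ d) (b := (Nat.card Bad : ℝ)) (c := ε * q) (by linarith) (by positivity)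
  exact this

end Pool.Agent.H201.Cz
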