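import Pool.Agent.H201.Cz.Arc
import Pool.Graph.R_pool_sql_team_seeded_3997aac3.Q161.MsJ

/-! # Arbitrary averages: one rotation, cyclic groups, commuting permutations -/

set_option autoImplicit false

open MeasureTheory

namespace Pool.Agent.H201.Cz.Gen

open Pool.Agent.Q161.Ms

variable {I Θ : Type} {d m : ℕ}

/-- translations -/
def tr {H : Type} [AddCommGroup H] (e : Fin d → Fin m → I → ℤ) (a : Fin d → H) (j : Fin m) (i : I) (x : H) : H :=
  x + ∑ l, e l j i • a l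

/-- The statement for all finite cyclic groups. -/
def CycR (w : Θ → ℝ) (B : Θ → Finset I) (e : Fin d → Fin m → I → ℤ) (W : ℕ → ℕ → Finset Θ) (c : ℕ → Θ) : Prop :=
  ∀ ε : ℝ, 0 < ε → ∀ Φ : ℕ → ℕ, ∃ K : ℕ, ∀ Q : ℕ, 0 < Q → ∀ (a : Fin d → ZMod Q) (A : Fin m → Set (ZMod Q)),
    ∃ N, 1 ≤ N ∧ N ≤ K ∧
      (Nat.card {x : ZMod Q // ∃ t ∈ W N (Φ N), ε < dist (av w B (tr e a) (fun j => (A j).indicator 1) x t)
        (av w B (tr e a) (fun j => (A j).indicator 1) x (c N))} : ℝ) ≤ ε * Q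

/-- The statement for finite unions of arcs and the rotation by `α`. -/
def ArcR (α : ℝ) (w : Θ → ℝ) (B : Θ → Finset I) (e : Fin d → Fin m → I → ℤ) (W : ℕ → ℕ → Finset Θ) (c : ℕ → Θ) : Prop :=
  ∀ ε : ℝ, 0 < ε → ∀ Φ : ℕ → ℕ, ∃ K : ℕ, ∀ (a : Fin d → ℤ) (A : Fin m → Set UnitAddCircle), (∀ j, IsArcs (A j)) →
    ∃ N, 1 ≤ N ∧ N ≤ K ∧
      volume {x : UnitAddCircle | ∃ t ∈ W N (Φ N),
        ε < dist (av w B (tr e fun i => a i • (α : UnitAddCircle)) (fun j => (A j).indicator 1) x t)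
        (av w B (tr e fun i => a i • (α : UnitAddCircle)) (fun j => (A j).indicator 1) x (c N))} ≤ ENNReal.ofReal ε

lemma av_congr {X Y : Type} (w : Θ → ℝ) (B : Θ → Finset I) (τ : Fin m → I → X → X) (τ' : Fin m → I → Y → Y)
    (A : Fin m → Set X) (A' : Fin m → Set Y) (x : X) (y : Y) (t : Θ)
    (h : ∀ i ∈ B t, ∀ j, (τ j i x ∈ A j ↔ τ' j i y ∈ A' j)) :
    av w B τ (fun j => (A j).indicator 1) x t = av w B τ' (fun j => (A' j).indicator 1) y t := by
  classical
  unfold av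
  congr 1
  refine Finset.sum_congr rfl fun i hi => Finset.prod_congr rfl fun j _ => ?_
  simp only [Set.indicator_apply, Pi.one_apply]
  simp only [h i hi j]

/-- the finite set of parameters which occur -/
lemma exists_params [DecidableEq I] [DecidableEq Θ] (B : Θ → Finset I) (W : ℕ → ℕ → Finset Θ) (c : ℕ → Θ) (Φ : ℕ → ℕ) (K : ℕ) :
    ∃ S : Finset I, ∀ N, N ≤ K → ∀ t, (t = c N ∨ t ∈ W N (Φ N)) → ∀ i ∈ B t, i ∈ S := by
  refine ⟨(Finset.range (K + 1)).biUnion fun N => (insert (c N) (W N (Φ N))).biUnion B, fun N hN t ht i hi => ?_⟩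
  refine Finset.mem_biUnion.2 ⟨N, Finset.mem_range.2 (by omega), Finset.mem_biUnion.2 ⟨t, ?_, hi⟩⟩
  rw [Finset.mem_insert]
  exact ht

lemma exists_bd (e : Fin d → Fin m → I → ℤ) (S : Finset I) : ∃ R : ℕ, ∀ l j, ∀ i ∈ S, |e l j i| ≤ R := by
  refine ⟨∑ l, ∑ j, ∑ i ∈ S, (e l j i).natAbs, fun l j i hi => ?_⟩
  rw [Int.abs_eq_natAbs]
  have h3 : (e l j i).natAbs ≤ ∑ i ∈ S, (e l j i).natAbs :=
    Finset.single_le_sum (f := fun n => (e l j n).natAbs) (fun _ _ => Nat.zero_le _) hi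
  have h4 : ∑ i ∈ S, (e l j i).natAbs ≤ ∑ j, ∑ i ∈ S, (e l j i).natAbs :=
    Finset.single_le_sum (f := fun j => ∑ n ∈ S, (e l j n).natAbs) (fun _ _ => Nat.zero_le _) (Finset.mem_univ j)
  have h5 : ∑ j, ∑ i ∈ S, (e l j i).natAbs ≤ ∑ l, ∑ j, ∑ i ∈ S, (e l j i).natAbs :=
    Finset.single_le_sum (f := fun i => ∑ j, ∑ n ∈ S, (e i j n).natAbs) (fun _ _ => Nat.zero_le _) (Finset.mem_univ l)
  exact_mod_cast h3.trans (h4.trans h5)

theorem cyc_fin (w : Θ → ℝ) (B : Θ → Finset I) (e : Fin d → Fin m → I → ℤ) (W : ℕ → ℕ → Finset Θ) (c : ℕ → Θ)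
    (h : CycR w B e W c) : FinT 1 w B e W c := by
  classical
  intro ε hε Φ
  obtain ⟨K, hK⟩ := h (ε / 2) (by linarith) Φ
  refine ⟨K, ?_⟩
  intro Y _ _ T hT A
  have hc := class_commute T hT
  obtain ⟨S, hS⟩ := exists_params B W c Φ K
  obtain ⟨R, hR⟩ := exists_bd e S
  obtain ⟨q, hq⟩ : ∃ q, q = Fintype.card Y := ⟨_, rfl⟩
  have hq0 : 0 < q := by rw [hq]; exact Fintype.card_pos
  let y : Fin q ≃ Y := (Fintype.equivFinOfCardEq hq.symm).symm
  obtain ⟨M, hM⟩ : ∃ M : ℕ, M = 4 * (R + 1) * (d + 1) := ⟨_, rfl⟩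
  have hM0 : 0 < M := by rw [hM]; positivity
  let Q : ℕ := q * M ^ d
  have hQ : 0 < Q := by positivity
  let box : (Fin d → ℤ) → Prop := fun u => ∀ i, 0 ≤ u i ∧ u i < M
  let A' : Fin m → Set (ZMod Q) := fun j => {x | ∃ v u, box u ∧ x = enc q M Q v u ∧ mv T u (y v) ∈ A j}
  have hA' : ∀ j v u, box u → (enc q M Q v u ∈ A' j ↔ mv T u (y v) ∈ A j) := by
    intro j v u hu
    constructor
    · rintro ⟨v', u', hu', h1, h2⟩
      obtain ⟨rfl, rfl⟩ := enc_inj q M hM0 v v' u u' hu hu' h1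
      exact h2
    · intro h2
      exact ⟨v, u, hu, rfl, h2⟩
  obtain ⟨N, hN1, hN2, hN3⟩ := hK Q hQ (fun i => ((q * M ^ (i : ℕ) : ℕ) : ZMod Q)) A'
  refine ⟨N, hN1, hN2, ?_⟩
  -- the interior
  let Int' : Finset (Fin d → ℤ) := Fintype.piFinset fun _ => Finset.Ico (R : ℤ) (M - R)
  have hshare : ∀ v, ∀ u ∈ Int', ∀ t, (t = c N ∨ t ∈ W N (Φ N)) →
      av w B (tr e (fun i => ((q * M ^ (i : ℕ) : ℕ) : ZMod Q))) (fun j => (A' j).indicator 1) (enc q M Q v u) t =
      av w B (maps T e) (fun j => (A j).indicator 1) (mv T u (y v)) t := by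
    intro v u hu t ht
    apply av_congr
    intro i hi j
    have h0 : maps T e j i (mv T u (y v)) = mv T (u + fun l => e l j i) (y v) := by
      rw [add_comm, mv_add T hc]
      rfl
    rw [h0]
    unfold tr
    rw [← enc_add q M Q v u (fun l => e l j i), hA']
    intro l
    have h1 := Finset.mem_Ico.1 (Fintype.mem_piFinset.1 hu l)
    have h2 := abs_le.1 (hR l j i (hS N hN2 t ht i hi))
    simp only [Pi.add_apply]
    omega
  let Bad : Set Y := {z | ∃ t ∈ W N (Φ N), ε < dist (av w B (maps T e) (fun j => (A j).indicator 1) z t)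
    (av w B (maps T e) (fun j => (A j).indicator 1) z (c N))}
  let Bad' : Set (ZMod Q) := {x | ∃ t ∈ W N (Φ N),
    ε / 2 < dist (av w B (tr e (fun i => ((q * M ^ (i : ℕ) : ℕ) : ZMod Q))) (fun j => (A' j).indicator 1) x t)
      (av w B (tr e (fun i => ((q * M ^ (i : ℕ) : ℕ) : ZMod Q))) (fun j => (A' j).indicator 1) x (c N))}
  have hNZ : NeZero Q := ⟨hQ.ne'⟩
  change (Nat.card Bad' : ℝ) ≤ ε / 2 * Q at hN3
  change (Nat.card Bad : ℝ) ≤ ε * Fintype.card Y
  -- an injection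
  have hinj : (Int'.card : ℝ) * Nat.card Bad ≤ Nat.card Bad' := by
    have hmem : ∀ u ∈ Int', ∀ z ∈ Bad,
        enc q M Q (y.symm (Equiv.symm (List.ofFn fun i => T i ^ u i).prod z)) u ∈ Bad' := by
      rintro u hu z ⟨t, h1, h3⟩
      refine ⟨t, h1, ?_⟩
      have h4 : mv T u (y (y.symm (Equiv.symm (List.ofFn fun i => T i ^ u i).prod z))) = z := by
        unfold mv
        simp
      rw [hshare _ u hu t (Or.inr h1), hshare _ u hu (c N) (Or.inl rfl), h4]
      exact lt_of_le_of_lt (by linarith) h3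
    refine card_inj Int' Bad Bad'
      (fun u z => enc q M Q (y.symm (Equiv.symm (List.ofFn fun i => T i ^ u i).prod z)) u) hmem ?_
    intro u hu z hz u' hu' z' hz' h1
    obtain ⟨h2, h3⟩ := enc_inj q M hM0 _ _ u u' (by
      intro i
      have h1 := Finset.mem_Ico.1 (Fintype.mem_piFinset.1 hu i)
      omega) (by
      intro i
      have h1 := Finset.mem_Ico.1 (Fintype.mem_piFinset.1 hu' i)
      omega) h1
    subst h3
    have h4 := y.symm.injective h2
    exact ⟨rfl, (Equiv.symm (List.ofFn fun i => T i ^ u i).prod).injective h4⟩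
  have hcard : (1 / 2 : ℝ) * M ^ d ≤ Int'.card := by
    have h1 : Int'.card = (M - 2 * R) ^ d := by
      rw [Fintype.card_piFinset]
      simp only [Int.card_Ico, Finset.prod_const, Finset.card_univ, Fintype.card_fin]
      congr 1
      omega
    have h2 : 2 * R ≤ M := by rw [hM]; nlinarith
    rw [h1]
    push_cast [h2]
    have hMR : (0 : ℝ) < M := by exact_mod_cast hM0
    have h3 : ((M : ℝ) - 2 * R) = M * (1 + (-(2 * R / M))) := by field_simp; ring
    rw [h3, mul_pow, mul_comm]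
    apply mul_le_mul_of_nonneg_left _ (by positivity)
    have h5 : (2 * R / M : ℝ) * d ≤ 1 / 2 := by
      rw [div_mul_eq_mul_div, div_le_iff₀ hMR, hM]
      push_cast
      nlinarith [Nat.cast_nonneg (α := ℝ) R, Nat.cast_nonneg (α := ℝ) d, mul_nonneg (Nat.cast_nonneg (α := ℝ) R) (Nat.cast_nonneg (α := ℝ) d)]
    have h6 : (2 * R / M : ℝ) ≤ 2 := by
      rw [div_le_iff₀ hMR]
      have : (2 * R : ℝ) ≤ M := by exact_mod_cast h2
      linarith
    have h4 := one_add_mul_le_pow (a := -(2 * R / M : ℝ)) (by linarith) d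
    linarith
  have hMd : (0 : ℝ) < M ^ d := by positivity
  have hQ' : ((Q : ℕ) : ℝ) = q * M ^ d := by push_cast [Q]; ring
  have hfin : (1 / 2 : ℝ) * M ^ d * Nat.card Bad ≤ ε / 2 * (q * M ^ d) := by
    calc (1 / 2 : ℝ) * M ^ d * Nat.card Bad ≤ Int'.card * Nat.card Bad := by gcongr
      _ ≤ Nat.card Bad' := hinj
      _ ≤ ε / 2 * Q := hN3
      _ = ε / 2 * (q * M ^ d) := by rw [hQ']
  rw [← hq]
  have := le_of_mul_le_mul_left (a := (1 / 2 : ℝ) * M ^ d) (b := (Nat.card Bad : ℝ)) (c := ε * q) (by linarith) (by positivity)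
  exact this

theorem arc_cyc {α : ℝ} (hα : Irrational α) (w : Θ → ℝ) (B : Θ → Finset I) (e : Fin d → Fin m → I → ℤ)
    (W : ℕ → ℕ → Finset Θ) (c : ℕ → Θ) (h : ArcR α w B e W c) : CycR w B e W c := by
  classical
  intro ε hε Φ
  obtain ⟨K, hK⟩ := h (ε / 2) (by linarith) Φ
  refine ⟨K, ?_⟩
  intro Q hQ0 a A
  have hNZ : NeZero Q := ⟨hQ0.ne'⟩
  have hQ : (0 : ℝ) < Q := by exact_mod_cast hQ0
  obtain ⟨S, hS⟩ := exists_params B W c Φ K
  obtain ⟨R, hR⟩ := exists_bd e S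
  obtain ⟨δ, hδ⟩ : ∃ δ : ℝ, δ = 1 / (4 * Q * ((R + 1) * (d + 1))) := ⟨_, rfl⟩
  have hδ0 : 0 < δ := by rw [hδ]; positivity
  choose k r hr hk using fun i => exists_multiple hα ((a i).val / Q : ℝ) δ hδ0
  obtain ⟨N, hN1, hN2, hN3⟩ := hK k (fun j => arcs (A j)) (fun j => arcs_isArcs (A j))
  refine ⟨N, hN1, hN2, ?_⟩
  have hshare : ∀ (z : ZMod Q) (s : ℝ), 1 / 4 < s → s < 3 / 4 → ∀ t, (t = c N ∨ t ∈ W N (Φ N)) →
      av w B (tr e fun i => k i • (α : UnitAddCircle)) (fun j => (arcs (A j)).indicator 1)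
        ((((z.val : ℝ) + s) / Q : ℝ) : UnitAddCircle) t = av w B (tr e a) (fun j => (A j).indicator 1) z t := by
    intro z s ht1 ht2 t ht
    apply av_congr
    intro l hl j
    unfold tr
    have hb : |(Q : ℝ) * ∑ i, (e i j l : ℝ) * r i| < 1 / 4 := by
      rw [abs_mul, abs_of_pos hQ]
      have h1 : |∑ i, (e i j l : ℝ) * r i| ≤ ∑ i : Fin d, (R : ℝ) * δ := by
        refine (Finset.abs_sum_le_sum_abs _ _).trans (Finset.sum_le_sum fun i _ => ?_)
        rw [abs_mul]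
        apply mul_le_mul _ (hr i).le (abs_nonneg _) (Nat.cast_nonneg _)
        have := hR i j l (hS N hN2 t ht l hl)
        exact_mod_cast this
      rw [Finset.sum_const, Finset.card_univ, Fintype.card_fin, nsmul_eq_mul] at h1
      calc (Q : ℝ) * |∑ i, (e i j l : ℝ) * r i| ≤ Q * (d * (R * δ)) := by gcongr
        _ = (R * d) / (4 * ((R + 1) * (d + 1))) := by rw [hδ]; field_simp
        _ < 1 / 4 := by
          rw [div_lt_div_iff₀ (by positivity) (by norm_num)]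
          nlinarith [Nat.cast_nonneg (α := ℝ) R, Nat.cast_nonneg (α := ℝ) d]
    have hpt : ((((z.val : ℝ) + s) / Q : ℝ) : UnitAddCircle) + ∑ i, e i j l • k i • (α : UnitAddCircle) =
        (((((z.val : ℤ) + ∑ i, e i j l * ((a i).val : ℤ) : ℤ) : ℝ) + (s + Q * ∑ i, (e i j l : ℝ) * r i)) / Q : ℝ) := by
      have h2 : ∑ i, e i j l • k i • (α : UnitAddCircle) =
          ((∑ i, (e i j l : ℝ) * ((a i).val / Q + r i) : ℝ) : UnitAddCircle) := by
        have h3 : ((∑ i, (e i j l : ℝ) * ((a i).val / Q + r i) : ℝ) : UnitAddCircle) =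
            ∑ i, (((e i j l : ℝ) * ((a i).val / Q + r i) : ℝ) : UnitAddCircle) := by
          exact map_sum (QuotientAddGroup.mk' (AddSubgroup.zmultiples (1 : ℝ))) _ _
        rw [h3]
        refine Finset.sum_congr rfl fun i _ => ?_
        rw [hk i, ← AddCircle.coe_zsmul, zsmul_eq_mul]
      rw [h2, ← AddCircle.coe_add]
      congr 1
      push_cast
      simp only [mul_add, Finset.sum_add_distrib]
      have h4 : ∑ i, (e i j l : ℝ) * ((a i).val / Q) = (∑ i, (e i j l : ℝ) * (a i).val) / Q := by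
        rw [Finset.sum_div]
        exact Finset.sum_congr rfl fun i _ => by ring
      rw [h4]
      field_simp
      ring
    rw [hpt, mem_arcs _ _ _ (by linarith [(abs_lt.1 hb).1]) (by linarith [(abs_lt.1 hb).2])]
    have h5 : (((z.val : ℤ) + ∑ i, e i j l * ((a i).val : ℤ) : ℤ) : ZMod Q) = z + ∑ i, e i j l • a i := by
      push_cast
      rw [ZMod.natCast_zmod_val]
      congr 1
      refine Finset.sum_congr rfl fun i _ => ?_
      rw [ZMod.natCast_zmod_val, zsmul_eq_mul]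
    rw [h5]
  have hvol := volume_lower {x : ZMod Q | ∃ t ∈ W N (Φ N),
      ε < dist (av w B (tr e a) (fun j => (A j).indicator 1) x t) (av w B (tr e a) (fun j => (A j).indicator 1) x (c N))}
    {x : UnitAddCircle | ∃ t ∈ W N (Φ N),
      ε / 2 < dist (av w B (tr e fun i => k i • (α : UnitAddCircle)) (fun j => (arcs (A j)).indicator 1) x t)
        (av w B (tr e fun i => k i • (α : UnitAddCircle)) (fun j => (arcs (A j)).indicator 1) x (c N))} (by
    rintro z ⟨t, hn1, hn3⟩ s ht1 ht2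
    refine ⟨t, hn1, ?_⟩
    rw [hshare z s ht1 ht2 t (Or.inr hn1), hshare z s ht1 ht2 (c N) (Or.inl rfl)]
    exact lt_of_le_of_lt (by linarith) hn3)
  have h6 := hvol.trans hN3
  rw [ENNReal.ofReal_le_ofReal_iff (by linarith), div_le_iff₀ (by positivity)] at h6
  have h7 : (Nat.card {x : ZMod Q // ∃ t ∈ W N (Φ N),
      ε < dist (av w B (tr e a) (fun j => (A j).indicator 1) x t)
        (av w B (tr e a) (fun j => (A j).indicator 1) x (c N))} : ℝ) =
    (Nat.card {x : ZMod Q | ∃ t ∈ W N (Φ N),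
      ε < dist (av w B (tr e a) (fun j => (A j).indicator 1) x t)
        (av w B (tr e a) (fun j => (A j).indicator 1) x (c N))} : ℝ) := rfl
  rw [h7]
  linarith

end Pool.Agent.H201.Cz.Gen
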